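import Pool.Agent.helper12.LE.SpecB

/-!
# Project LE (MP_baa4d7_al), row KRP: powers of a regular coset
-/

set_option autoImplicit false

namespace Pool.Agent.LE

open Pool.Agent.helper58.DC Pool.Agent.DI Pool.Agent.GR Pool.Agent.OB Pool.Agent.DR Pool.Agent.FI Pool.Agent.FI3 Pool.Agent.FI4 Pool.Agent.FI4C Pool.Agent.FI4B

theorem KRP_cop {G : Type} [Group G] {p : ℕ} (hp : p.Prime) (D : Subgroup G) (hD : IsPGroup p D) (w : G) (hw : w ∈ D)
    (s : ℕ) (hs : ¬ p ∣ s) : ∃ m : ℕ, (w ^ s) ^ m = w := by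
  obtain ⟨n, hn⟩ := hD ⟨w, hw⟩
  have h1 : w ^ p ^ n = 1 := by
    have := congrArg Subtype.val hn
    simpa using this
  have h2 : Nat.Coprime s (orderOf w) := by
    have h3 : orderOf w ∣ p ^ n := orderOf_dvd_of_pow_eq_one h1
    have h4 : Nat.Coprime s p := ((Nat.Prime.coprime_iff_not_dvd hp).2 hs).symm
    exact Nat.Coprime.coprime_dvd_right h3 (h4.pow_right n)
  exact exists_pow_eq_self_of_coprime h2

theorem KRP (hRGF : RGF_stmt) : KRP_stmt := by
  intro p M hp G _ _ D θ hθ hD hcomm h g K u hK s hs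
  have h2 := (hRGF p M hp G D θ hθ hD hcomm).2.1
  refine ⟨hK.le, hK.pw, hK.inv, D.pow_mem hK.mem s, ?_, ?_⟩
  · intro k hk
    obtain ⟨m, hm⟩ := KRP_cop hp D hD k (hK.le hk) s hs
    have hk' : k ^ m ∈ K := K.pow_mem hk m
    have h3 : (k ^ m) ^ s = k := by
      rw [← pow_mul, mul_comm, pow_mul, hm]
    have h4 : u ^ s * k = (u * k ^ m) ^ s := by
      have hc : Commute u (k ^ m) := hcomm u hK.mem _ (hK.le hk')
      rw [hc.mul_pow, h3]
    rw [h4]
    exact (h2 (u * k ^ m) (D.mul_mem hK.mem (hK.le hk')) s hs).2 (hK.reg _ hk')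
  · rcases hK.ord with h0 | h0
    · exact Or.inl h0
    · refine Or.inr fun h5 => h0 ?_
      have h6 : (u ^ s) ^ p ^ g = (u ^ p ^ g) ^ s := by
        rw [← pow_mul, ← pow_mul, mul_comm]
      rw [h6] at h5
      obtain ⟨m, hm⟩ := KRP_cop hp D hD (u ^ p ^ g) (D.pow_mem hK.mem _) s hs
      rw [← hm]
      exact K.pow_mem h5 m

end Pool.Agent.LE
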